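import Pool.Agent.H9.CR3

set_option autoImplicit false

namespace Pool.Agent.Results.MP_d44e62_co.Counter

open Pool.Agent.H9.CR

theorem result : ∃ (a b : ℕ) (F : SimpleGraph (Fin a)) (G : SimpleGraph (Fin b)) (n m : ℕ),
    2 ≤ a ∧ 2 ≤ b ∧ 2 ≤ n ∧ 1 ≤ m ∧ RelatedAt F G n ∧ ¬ RelatedAt F G m :=
  ⟨5, 28, crF, crG, 2, 3, by norm_num, by norm_num, by norm_num, by norm_num,
    ⟨28, crG, chi_GF, chi_GG⟩, not_rel3⟩

end Pool.Agent.Results.MP_d44e62_co.Counter
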